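import Pool.Agent.Lib.H60T.Main

/-!
# MP_5a327f_al : subgroups of infinite index of `SL_n(ℤ)` meeting many conjugacy classes

Eigenvalues are complex and counted with multiplicity.  For `n ≥ 3` and `1 ≤ k ≤ n / 2` some subgroup
`H k` of infinite index of `SL_n(ℤ)` contains a conjugate of every element with a gap after the `k`-th
and after the `(n - k)`-th largest eigenvalue modulus.  Every element no three of whose eigenvalues
have the same modulus is conjugate into some `H k` (`k = n / 2` or `n / 2 - 1` if `n` is even), unless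
`n` is odd and the element is of one explicit type.
-/

namespace Pool.Agent.Results.MP_5a327f_al.GapClasses

/-- `SL_n(ℤ)` -/
abbrev SLZ (n : ℕ) := Matrix.SpecialLinearGroup (Fin n) ℤ

/-- the complex eigenvalues of `g`, with multiplicity -/
noncomputable def eigs {n : ℕ} (g : SLZ n) : Multiset ℂ :=
  ((g : Matrix (Fin n) (Fin n) ℤ).map (fun a : ℤ => (a : ℂ))).charpoly.roots

/-- for some radius `ρ` exactly `k` eigenvalues (with multiplicity) have modulus `> ρ`, and
no eigenvalue has modulus `ρ` -/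
def Gap {n : ℕ} (g : SLZ n) (k : ℕ) : Prop :=
  ∃ ρ : ℝ, Multiset.card ((eigs g).filter (fun z => ρ < ‖z‖)) = k ∧ ∀ z ∈ eigs g, ‖z‖ ≠ ρ

/-- no three eigenvalues (with multiplicity) have the same modulus -/
def NoThree {n : ℕ} (g : SLZ n) : Prop :=
  ∀ r : ℝ, Multiset.card ((eigs g).filter (fun z => ‖z‖ = r)) ≤ 2

/-- one eigenvalue `z`, of largest or of smallest modulus, is the only one of its modulus, and for
every other eigenvalue `w` there are exactly two eigenvalues of modulus `‖w‖` (all with multiplicity) -/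
def Exc {n : ℕ} (g : SLZ n) : Prop :=
  ∃ z ∈ eigs g, Multiset.card ((eigs g).filter (fun w => ‖w‖ = ‖z‖)) = 1 ∧
    ((∀ w ∈ eigs g, ‖w‖ ≤ ‖z‖) ∨ (∀ w ∈ eigs g, ‖z‖ ≤ ‖w‖)) ∧
    ∀ w ∈ eigs g, ‖w‖ ≠ ‖z‖ → Multiset.card ((eigs g).filter (fun v => ‖v‖ = ‖w‖)) = 2

/-- `index = 0` means infinite index -/
theorem result (n : ℕ) (hn : 3 ≤ n) :
    ∃ H : ℕ → Subgroup (SLZ n),
      (∀ k, 1 ≤ k → 2 * k ≤ n → (H k).index = 0 ∧
        ∀ g : SLZ n, Gap g k → Gap g (n - k) → ∃ x : SLZ n, x * g * x⁻¹ ∈ H k) ∧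
      ∀ g : SLZ n, NoThree g → ¬ (Odd n ∧ Exc g) →
        ∃ (k : ℕ) (x : SLZ n), 1 ≤ k ∧ 2 * k ≤ n ∧ (Even n → n ≤ 2 * k + 2) ∧
          x * g * x⁻¹ ∈ H k :=
  H60T.family_main n hn

end Pool.Agent.Results.MP_5a327f_al.GapClasses
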