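import Pool.Agent.Lib.H93I.Final

/-!
# MP_5a327f_al : an infinite index subgroup of `SL_n(ℤ)`, `n ≥ 3`, meeting many conjugacy classes

The subgroup contains a conjugate of every `g` whose complex eigenvalues of largest and of smallest
modulus are positive real numbers times roots of unity.
-/

namespace Pool.Agent.Results.MP_5a327f_al.ManyClasses

/-- For `n ≥ 3` some subgroup of infinite index in `SL_n(ℤ)` (`index = 0` means infinite index)
contains a conjugate of every `g` such that every complex eigenvalue `z` of `g` of largest or of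
smallest modulus satisfies `z ^ N = ‖z‖ ^ N` for some `N > 0`. -/
theorem result (n : ℕ) (hn : 3 ≤ n) :
    ∃ H : Subgroup (Matrix.SpecialLinearGroup (Fin n) ℤ), H.index = 0 ∧
      ∀ g : Matrix.SpecialLinearGroup (Fin n) ℤ,
        (∀ z ∈ spectrum ℂ ((g : Matrix (Fin n) (Fin n) ℤ).map (fun a : ℤ => (a : ℂ))),
          ((∀ w ∈ spectrum ℂ ((g : Matrix (Fin n) (Fin n) ℤ).map (fun a : ℤ => (a : ℂ))),
              ‖w‖ ≤ ‖z‖) ∨
            (∀ w ∈ spectrum ℂ ((g : Matrix (Fin n) (Fin n) ℤ).map (fun a : ℤ => (a : ℂ))),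
              ‖z‖ ≤ ‖w‖)) →
          ∃ N : ℕ, 0 < N ∧ z ^ N = (‖z‖ : ℂ) ^ N) →
        ∃ x : Matrix.SpecialLinearGroup (Fin n) ℤ, x * g * x⁻¹ ∈ H :=
  H93I.main hn

end Pool.Agent.Results.MP_5a327f_al.ManyClasses
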