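import Pool.Agent.Lib.H60T.Main

/-!
# MP_5a327f_al : `SL_4(ℤ)` is the union of the conjugates of two subgroups of infinite index
-/

namespace Pool.Agent.Results.MP_5a327f_al.SLFourUnion

/-- `SL_4(ℤ)` has two subgroups of infinite index (`index = 0`) such that every element is
conjugate into one of them. -/
theorem result :
    ∃ H H' : Subgroup (Matrix.SpecialLinearGroup (Fin 4) ℤ), H.index = 0 ∧ H'.index = 0 ∧
      ∀ g : Matrix.SpecialLinearGroup (Fin 4) ℤ,
        ∃ x : Matrix.SpecialLinearGroup (Fin 4) ℤ, x * g * x⁻¹ ∈ H ∨ x * g * x⁻¹ ∈ H' :=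
  H60T.four_main

end Pool.Agent.Results.MP_5a327f_al.SLFourUnion
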